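import Mathlib
import Pool.Agent.Y225.DS.Conc
import Pool.Agent.Y225.DS.Sum

/-!
Diestel's question: for which Banach spaces `X` does `L¹([0,1],X)` contain a copy of `ℓ²(X)`?
Positive answer for every `X` which contains a copy of `ℓ^p(X)` for some `2 ≤ p < ∞`, or a copy of
`c₀(X)`; in particular for `X = ℓ^p(Y)` with `2 ≤ p < ∞` and `X = c₀(Y)`, for every Banach space `Y`.
-/

open MeasureTheory Set
open scoped ENNReal ZeroAtInfty

namespace Pool.Agent.Results.MP_cdd7b4_an.SpacesContainingLpSums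

/-- The normed space `F` contains a copy of `E`: there is a bounded linear operator from `E` to `F`
which is bounded below (for Banach spaces: an isomorphism onto a closed subspace). -/
def Contains (𝕜 : Type) [RCLike 𝕜] (E F : Type) [NormedAddCommGroup E] [NormedSpace 𝕜 E]
    [NormedAddCommGroup F] [NormedSpace 𝕜 F] : Prop :=
  ∃ T : E →L[𝕜] F, ∃ c : ℝ, 0 < c ∧ ∀ x, c * ‖x‖ ≤ ‖T x‖

/-- Diestel's property of a Banach space `X` over `𝕜`: the Lebesgue–Bochner space `L¹([0,1],X)`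
contains a copy of `ℓ²(X)`. -/
def DiestelProperty (𝕜 : Type) [RCLike 𝕜] (X : Type) [NormedAddCommGroup X] [NormedSpace 𝕜 X] :
    Prop :=
  Contains 𝕜 (lp (fun _ : ℕ => X) 2) (Lp X 1 ((volume : Measure ℝ).restrict (Icc (0:ℝ) 1)))

lemma mu_eq : Pool.Agent.Y225.DS.mu = (volume : Measure ℝ).restrict (Icc (0:ℝ) 1) := by
  rw [Pool.Agent.Y225.DS.mu]
  exact Measure.restrict_congr_set Ioc_ae_eq_Icc

lemma diestel_iff (𝕜 : Type) [RCLike 𝕜] (X : Type) [NormedAddCommGroup X] [NormedSpace 𝕜 X] :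
    DiestelProperty 𝕜 X ↔
      Pool.Agent.Y225.DS.CopyIn 𝕜 (lp (fun _ : ℕ => X) 2) (Lp X 1 Pool.Agent.Y225.DS.mu) := by
  unfold DiestelProperty
  rw [← mu_eq]
  rfl

/-- Let `𝕜` be the field of real or complex numbers.
(1) A Banach space `X` has Diestel's property if for some `p > 2` and `C > 0` there are operators
`J_i : X → X` with `‖x_i‖ ≤ C ‖∑ J_i x_i‖` and `‖∑ J_i x_i‖ ≤ C (∑ ‖x_i‖^p)^(1/p)` for all finite
families.
(2) It has the property if it contains a copy of `ℓ^p(X)` for some `2 ≤ p < ∞`.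
(3) It has the property if it contains a copy of `c₀(X)`.
(4) `ℓ^p(Y)` has the property for all `2 ≤ p < ∞` and all Banach spaces `Y`.
(5) `c₀(Y)` has the property for all Banach spaces `Y`.
(6) The property passes to direct sums of two Banach spaces. -/
theorem result (𝕜 : Type) [RCLike 𝕜] :
    (∀ (X : Type) [NormedAddCommGroup X] [NormedSpace 𝕜 X] [CompleteSpace X] (p C : ℝ),
      2 < p → 0 < C → ∀ J : ℕ → X →L[𝕜] X,
      (∀ (s : Finset ℕ) (x : ℕ → X), (∀ i ∈ s, ‖x i‖ ≤ C * ‖∑ i ∈ s, J i (x i)‖) ∧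
        ‖∑ i ∈ s, J i (x i)‖ ≤ C * (∑ i ∈ s, ‖x i‖ ^ p) ^ (1 / p)) →
      DiestelProperty 𝕜 X) ∧
    (∀ (X : Type) [NormedAddCommGroup X] [NormedSpace 𝕜 X] [CompleteSpace X] (p : ℝ≥0∞)
      [Fact (1 ≤ p)], 2 ≤ p → p ≠ ∞ → Contains 𝕜 (lp (fun _ : ℕ => X) p) X →
      DiestelProperty 𝕜 X) ∧
    (∀ (X : Type) [NormedAddCommGroup X] [NormedSpace 𝕜 X] [CompleteSpace X],
      Contains 𝕜 C₀(ℕ, X) X → DiestelProperty 𝕜 X) ∧
    (∀ (Y : Type) [NormedAddCommGroup Y] [NormedSpace 𝕜 Y] [CompleteSpace Y] (p : ℝ≥0∞)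
      [Fact (1 ≤ p)], 2 ≤ p → p ≠ ∞ → DiestelProperty 𝕜 (lp (fun _ : ℕ => Y) p)) ∧
    (∀ (Y : Type) [NormedAddCommGroup Y] [NormedSpace 𝕜 Y] [CompleteSpace Y],
      DiestelProperty 𝕜 C₀(ℕ, Y)) ∧
    (∀ (X Y : Type) [NormedAddCommGroup X] [NormedSpace 𝕜 X] [CompleteSpace X]
      [NormedAddCommGroup Y] [NormedSpace 𝕜 Y] [CompleteSpace Y],
      DiestelProperty 𝕜 X → DiestelProperty 𝕜 Y → DiestelProperty 𝕜 (X × Y)) := by
  refine ⟨?_, ?_, ?_, ?_, ?_, ?_⟩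
  · intro X _ _ _ p C hp hC J hJ
    rw [diestel_iff]
    exact Pool.Agent.Y225.DS.of_upper hp hC hJ
  · intro X _ _ _ p _ h2 hp h
    rw [diestel_iff]
    exact Pool.Agent.Y225.DS.of_lp p h2 hp h
  · intro X _ _ _ h
    rw [diestel_iff]
    exact Pool.Agent.Y225.DS.of_c0 h
  · intro Y _ _ _ p _ h2 hp
    rw [diestel_iff]
    exact Pool.Agent.Y225.DS.lp_has p h2 hp
  · intro Y _ _ _
    rw [diestel_iff]
    exact Pool.Agent.Y225.DS.c0_has
  · intro X Y _ _ _ _ _ _ hX hY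
    rw [diestel_iff] at hX hY ⊢
    exact Pool.Agent.Y225.DS.sum_has hX hY

end Pool.Agent.Results.MP_cdd7b4_an.SpacesContainingLpSums
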